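import Pool.Agent.Helper2.EC_C.Basic

/-!
# Packet K6 (MP_ecc237_nt, Part C)
-/

set_option autoImplicit false

open MeasureTheory Filter Topology Set

namespace ECC.PkK6

open EC237

/-- The left factors. -/
noncomputable def al (i : ℕ) (n : ℤ) : ℝ :=
  if i = 0 then 3 / 2 * (n : ℝ) ^ 2 * chi n else if i = 1 then 3 / 2 * chi n else -4 * (n : ℝ) * e3 n

/-- The right factors. -/
noncomputable def be (i : ℕ) (n : ℤ) : ℝ :=
  if i = 0 then chi n else if i = 1 then (n : ℝ) ^ 2 * chi n else (n : ℝ) * e3 n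

theorem e3_neg (n : ℤ) : e3 (-n) = e3 n := by
  unfold e3
  by_cases h : n % 3 = 0
  · rw [if_pos h, if_pos (by omega)]
  · rw [if_neg h, if_neg (by omega)]

theorem bnd (n : ℤ) {x c : ℝ} (hx : |x| ≤ 1) (hc : |c| ≤ 4) (j : ℕ) (hj : j ≤ 2) :
    |c * (n : ℝ) ^ j * x| ≤ 4 * (|(n : ℝ)| + 1) ^ 2 := by
  rw [abs_mul, abs_mul, abs_pow]
  have h0 : 0 ≤ |(n : ℝ)| := abs_nonneg _
  have h1 : |(n : ℝ)| ^ j ≤ (|(n : ℝ)| + 1) ^ 2 :=
    (pow_le_pow_left₀ h0 (by linarith) j).trans (pow_le_pow_right₀ (by linarith) hj)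
  have h2 : |c| * |(n : ℝ)| ^ j ≤ 4 * (|(n : ℝ)| + 1) ^ 2 :=
    mul_le_mul hc h1 (by positivity) (by norm_num)
  calc |c| * |(n : ℝ)| ^ j * |x| ≤ 4 * (|(n : ℝ)| + 1) ^ 2 * 1 :=
        mul_le_mul h2 hx (abs_nonneg _) (by positivity)
    _ = _ := by ring

theorem kernel (a b : ℤ) : ((a - b : ℤ) : ℝ) ^ 2 * e3 (a - b) - ((a + b : ℤ) : ℝ) ^ 2 * e3 (a + b)
    = ∑ i ∈ Finset.range 3, al i a * be i b := by
  simp only [Finset.sum_range_succ, Finset.sum_range_zero, al, be]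
  norm_num only [if_true, if_false]
  have ha : a % 3 = 0 ∨ a % 3 = 1 ∨ a % 3 = 2 := by omega
  have hb : b % 3 = 0 ∨ b % 3 = 1 ∨ b % 3 = 2 := by omega
  have h0 : (0 : ℤ) % 3 = 0 := by norm_num
  rcases ha with ha | ha | ha <;> rcases hb with hb | hb | hb
  · have h1 : (a - b) % 3 = 0 := by omega
    have h2 : (a + b) % 3 = 0 := by omega
    simp only [chi, e3, ha, hb, h1, h2]; push_cast; norm_num; ring
  · have h1 : (a - b) % 3 = 2 := by omega
    have h2 : (a + b) % 3 = 1 := by omega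
    simp only [chi, e3, ha, hb, h1, h2]; push_cast; norm_num; ring
  · have h1 : (a - b) % 3 = 1 := by omega
    have h2 : (a + b) % 3 = 2 := by omega
    simp only [chi, e3, ha, hb, h1, h2]; push_cast; norm_num; ring
  · have h1 : (a - b) % 3 = 1 := by omega
    have h2 : (a + b) % 3 = 1 := by omega
    simp only [chi, e3, ha, hb, h1, h2]; push_cast; norm_num; ring
  · have h1 : (a - b) % 3 = 0 := by omega
    have h2 : (a + b) % 3 = 2 := by omega
    simp only [chi, e3, ha, hb, h1, h2]; push_cast; norm_num; ring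
  · have h1 : (a - b) % 3 = 2 := by omega
    have h2 : (a + b) % 3 = 0 := by omega
    simp only [chi, e3, ha, hb, h1, h2]; push_cast; norm_num; ring
  · have h1 : (a - b) % 3 = 2 := by omega
    have h2 : (a + b) % 3 = 2 := by omega
    simp only [chi, e3, ha, hb, h1, h2]; push_cast; norm_num; ring
  · have h1 : (a - b) % 3 = 1 := by omega
    have h2 : (a + b) % 3 = 0 := by omega
    simp only [chi, e3, ha, hb, h1, h2]; push_cast; norm_num; ring
  · have h1 : (a - b) % 3 = 0 := by omega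
    have h2 : (a + b) % 3 = 1 := by omega
    simp only [chi, e3, ha, hb, h1, h2]; push_cast; norm_num; ring

theorem sum_formula (M : ℕ) (hM : 1 ≤ M) :
    ∑ j ∈ Finset.Ico 1 M, ((j : ℤ) : ℝ) ^ 2 * e3 (j : ℤ) =
      -(1 / 6) * chi (M : ℤ) + 2 / 3 * ((M : ℝ) * e3 (M : ℤ)) + 1 / 4 * (chi (M : ℤ) * (M : ℝ) ^ 2)
        - 1 / 2 * ((M : ℝ) ^ 2 * e3 (M : ℤ)) := by
  induction M, hM using Nat.le_induction with
  | base => simp [chi, e3]; norm_num
  | succ m hm ih =>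
    rw [Finset.sum_Ico_succ_top hm, ih]
    have hmm : (m : ℤ) % 3 = 0 ∨ (m : ℤ) % 3 = 1 ∨ (m : ℤ) % 3 = 2 := by omega
    rcases hmm with h | h | h
    · have h1 : (((m + 1 : ℕ)) : ℤ) % 3 = 1 := by push_cast; omega
      simp only [chi, e3, h, h1]; push_cast; norm_num; ring
    · have h1 : (((m + 1 : ℕ)) : ℤ) % 3 = 2 := by push_cast; omega
      simp only [chi, e3, h, h1]; push_cast; norm_num; ring
    · have h1 : (((m + 1 : ℕ)) : ℤ) % 3 = 0 := by push_cast; omega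
      simp only [chi, e3, h, h1]; push_cast; norm_num; ring

theorem e3_split (M : ℕ) : e3 (M : ℤ) = -(1 / 2) + 3 / 2 * (if 3 ∣ M then 1 else 0) := by
  unfold e3
  by_cases h : 3 ∣ M
  · rw [if_pos h, if_pos (by omega)]; norm_num
  · rw [if_neg h, if_neg (by omega)]; norm_num

/-- Splitting off the multiples of three. -/
theorem LS_e3 {f : ℕ → ℕ → ℝ} (hf : PG f) {q : ℝ} (hq : |q| < 1) :
    LS (fun M ν => f M ν * e3 (M : ℤ)) q =
      -(1 / 2) * LS f q + 3 / 2 * LS (fun M ν => f (3 * M) ν) (q ^ 3) := by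
  have h1 : LS (fun M ν => f M ν * e3 (M : ℤ)) q =
      LS (fun M ν => -(1 / 2) * f M ν + 3 / 2 * (if 3 ∣ M then f M ν else 0)) q := by
    refine LS_congr (fun M ν _ _ => ?_) q
    rw [e3_split]
    split_ifs <;> ring
  rw [h1, LS_add ((PG.const _).mul hf) ((PG.const _).mul (hf.ite (fun M _ => 3 ∣ M))) hq,
    LS_mul_left, LS_mul_left, LS_sieveM f (by norm_num)]

theorem LS_Me {q : ℝ} (hq : |q| < 1) : LS (fun M _ => (M : ℝ) * e3 (M : ℤ)) q =
    -1 / 2 * GS q + 9 / 2 * GS (q ^ 3) := by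
  rw [LS_e3 PG.M hq]
  have h1 : LS (fun M _ => (M : ℝ)) q = GS q := LS_swap (fun _ ν => (ν : ℝ)) q
  have h2 : LS (fun M _ => ((3 * M : ℕ) : ℝ)) (q ^ 3) = 3 * GS (q ^ 3) := by
    have : GS (q ^ 3) = LS (fun M _ => (M : ℝ)) (q ^ 3) :=
      (LS_swap (fun _ ν => (ν : ℝ)) (q ^ 3)).symm
    rw [this, ← LS_mul_left]
    exact LS_congr (fun M ν _ _ => by push_cast; ring) _
  rw [h1, h2]; ring

theorem LS_NMe {q : ℝ} (hq : |q| < 1) :
    LS (fun M ν => (ν : ℝ) * ((M : ℝ) ^ 2 * e3 (M : ℤ))) q =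
    -1 / 2 * GT q + 27 / 2 * GT (q ^ 3) := by
  have h0 : LS (fun M ν => (ν : ℝ) * ((M : ℝ) ^ 2 * e3 (M : ℤ))) q =
      LS (fun M ν => ((ν : ℝ) * (M : ℝ) ^ 2) * e3 (M : ℤ)) q :=
    LS_congr (fun M ν _ _ => by ring) _
  rw [h0, LS_e3 (f := fun M ν => (ν : ℝ) * (M : ℝ) ^ 2) (PG.N.mul (PG.M.pow 2)) hq]
  have h1 : ∀ q : ℝ, LS (fun M ν => (ν : ℝ) * (M : ℝ) ^ 2) q = GT q := fun q =>
    LS_swap (fun M ν => (M : ℝ) * (ν : ℝ) ^ 2) q
  have h2 : LS (fun M ν => (ν : ℝ) * ((3 * M : ℕ) : ℝ) ^ 2) (q ^ 3) = 9 * GT (q ^ 3) := by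
    rw [← h1, ← LS_mul_left]
    exact LS_congr (fun M ν _ _ => by push_cast; ring) _
  rw [h1, h2]; ring

theorem LS_M3e {q : ℝ} (hq : |q| < 1) :
    LS (fun M _ => (M : ℝ) ^ 3 * e3 (M : ℤ)) q = -1 / 2 * HS q + 81 / 2 * HS (q ^ 3) := by
  rw [LS_e3 (f := fun M _ => (M : ℝ) ^ 3) (PG.M.pow 3) hq]
  have h1 : ∀ q : ℝ, LS (fun M _ => (M : ℝ) ^ 3) q = HS q := fun q =>
    LS_swap (fun _ ν => (ν : ℝ) ^ 3) q
  have h2 : LS (fun M _ => ((3 * M : ℕ) : ℝ) ^ 3) (q ^ 3) = 27 * HS (q ^ 3) := by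
    rw [← h1, ← LS_mul_left]
    exact LS_congr (fun M ν _ _ => by push_cast; ring) _
  rw [h1, h2]; ring

theorem k6 (ram : G_RAM) : G_K6 := by
  intro q hq
  have key := ram (fun n => (n : ℝ) ^ 2 * e3 n) 3 al be 4 2
    (by intro n; rw [e3_neg]; push_cast; ring)
    (by
      intro n
      have := bnd n (x := e3 n) (c := 1) (abs_e3_le n) (by norm_num) 2 le_rfl
      simpa using this)
    (by
      intro i n
      unfold al
      split_ifs
      · exact bnd n (abs_chi_le n) (by rw [abs_of_pos] <;> norm_num) 2 le_rfl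
      · have := bnd n (x := chi n) (c := 3 / 2) (abs_chi_le n)
          (by rw [abs_of_pos] <;> norm_num) 0 (by norm_num)
        simpa using this
      · have := bnd n (x := e3 n) (c := -4) (abs_e3_le n)
          (by rw [abs_neg, abs_of_pos] <;> norm_num) 1 (by norm_num)
        simpa using this)
    (by
      intro i n
      unfold be
      split_ifs
      · have := bnd n (x := chi n) (c := 1) (abs_chi_le n)
          (by norm_num) 0 (by norm_num)
        simpa using this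
      · have := bnd n (x := chi n) (c := 1) (abs_chi_le n)
          (by norm_num) 2 (by norm_num)
        simpa using this
      · have := bnd n (x := e3 n) (c := 1) (abs_e3_le n)
          (by norm_num) 1 (by norm_num)
        simpa using this)
    (fun a b _ _ => kernel a b) q hq
  -- the left side
  have hY : LS (fun M _ => (M : ℝ) ^ 2 * chi (M : ℤ)) q = (1 - bS q) / 9 := by
    have : LS (fun M _ => (M : ℝ) ^ 2 * chi (M : ℤ)) q =
        LS (fun M _ => chi (M : ℤ) * (M : ℝ) ^ 2) q := LS_congr (fun M ν _ _ => by ring) _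
    rw [this]; unfold bS; ring
  have hl : LS (fun M _ => chi (M : ℤ)) q = (aS q - 1) / 6 := by
    unfold aS; ring
  have hs := LS_Me hq
  have a0 : LS (fun M _ => al 0 (M : ℤ)) q = 3 / 2 * ((1 - bS q) / 9) := by
    rw [← hY, ← LS_mul_left]
    refine LS_congr (fun M ν _ _ => ?_) _
    simp only [al, if_true]; push_cast; ring
  have b0 : LS (fun M _ => be 0 (M : ℤ)) q = (aS q - 1) / 6 := by
    rw [← hl]
    refine LS_congr (fun M ν _ _ => ?_) _
    simp only [be, if_true]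
  have a1 : LS (fun M _ => al 1 (M : ℤ)) q = 3 / 2 * ((aS q - 1) / 6) := by
    rw [← hl, ← LS_mul_left]
    refine LS_congr (fun M ν _ _ => ?_) _
    simp [al]
  have b1 : LS (fun M _ => be 1 (M : ℤ)) q = (1 - bS q) / 9 := by
    rw [← hY]
    refine LS_congr (fun M ν _ _ => ?_) _
    simp [be]
  have a2 : LS (fun M _ => al 2 (M : ℤ)) q = -4 * (-1 / 2 * GS q + 9 / 2 * GS (q ^ 3)) := by
    rw [← hs, ← LS_mul_left]
    refine LS_congr (fun M ν _ _ => ?_) _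
    simp only [al]; norm_num; ring
  have b2 : LS (fun M _ => be 2 (M : ℤ)) q = -1 / 2 * GS q + 9 / 2 * GS (q ^ 3) := by
    rw [← hs]
    refine LS_congr (fun M ν _ _ => ?_) _
    simp [be]
  -- the right side
  have pg2 : PG (fun M _ => (M : ℝ) ^ 2 * e3 (M : ℤ)) := (PG.M.pow 2).mul PG.e3
  have pg3 : PG (fun M _ => (M : ℝ) ^ 3 * e3 (M : ℤ)) := (PG.M.pow 3).mul PG.e3
  have r1 : LS (fun M ν => (ν : ℝ) * ((((M : ℤ) : ℝ)) ^ 2 * e3 (M : ℤ))) q =
      -1 / 2 * GT q + 27 / 2 * GT (q ^ 3) := by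
    rw [← LS_NMe hq]
    exact LS_congr (fun M ν _ _ => by push_cast; ring) _
  have r2 : LS (fun M _ => ((M : ℝ) + 1) * ((((M : ℤ) : ℝ)) ^ 2 * e3 (M : ℤ))) q =
      -1 / 2 * HS q + 81 / 2 * HS (q ^ 3) + LS (fun M _ => (M : ℝ) ^ 2 * e3 (M : ℤ)) q := by
    rw [← LS_M3e hq, ← LS_add pg3 pg2 hq]
    exact LS_congr (fun M ν _ _ => by push_cast; ring) _
  have r3 : LS (fun M _ => ∑ j ∈ Finset.Ico 1 M, (((j : ℤ) : ℝ)) ^ 2 * e3 (j : ℤ)) q =
      -(1 / 6) * ((aS q - 1) / 6) + 2 / 3 * (-1 / 2 * GS q + 9 / 2 * GS (q ^ 3))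
        + 1 / 4 * ((1 - bS q) / 9) - 1 / 2 * LS (fun M _ => (M : ℝ) ^ 2 * e3 (M : ℤ)) q := by
    have hY' : LS (fun M _ => chi (M : ℤ) * (M : ℝ) ^ 2) q = (1 - bS q) / 9 := by
      unfold bS; ring
    rw [← hl, ← hs, ← hY', ← LS_mul_left, ← LS_mul_left, ← LS_mul_left, ← LS_mul_left]
    have p1 : PG (fun M _ => -(1 / 6) * chi (M : ℤ)) := (PG.const _).mul PG.chi
    have p2 : PG (fun M _ => 2 / 3 * ((M : ℝ) * e3 (M : ℤ))) := (PG.const _).mul (PG.M.mul PG.e3)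
    have p3 : PG (fun M _ => 1 / 4 * (chi (M : ℤ) * (M : ℝ) ^ 2)) :=
      (PG.const _).mul (PG.chi.mul (PG.M.pow 2))
    have p4 : PG (fun M _ => 1 / 2 * ((M : ℝ) ^ 2 * e3 (M : ℤ))) := (PG.const _).mul pg2
    rw [← LS_add p1 p2 hq, ← LS_add (p1.add p2) p3 hq, ← LS_sub ((p1.add p2).add p3) p4 hq]
    exact LS_congr (fun M ν hM _ => sum_formula M hM) _
  simp only [Finset.sum_range_succ, Finset.sum_range_zero] at key
  rw [a0, b0, a1, b1, a2, b2, r1, r2, r3] at key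
  have hz : (((0 : ℤ) : ℝ)) ^ 2 * e3 0 = 0 := by norm_num
  rw [hz] at key
  linarith

end ECC.PkK6
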